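import Pool.Agent.Helper42.KS.Goals

set_option autoImplicit false

namespace Pool.Agent.Helper42.KS.PkDEC

open MeasureTheory

theorem ee_cont : Continuous ee := by
  unfold ee; fun_prop

theorem ee_norm (t : ℝ) : ‖ee t‖ = 1 := by
  unfold ee
  exact Complex.norm_exp_ofReal_mul_I _

theorem ee_add (s t : ℝ) : ee s * ee t = ee (s + t) := by
  unfold ee
  rw [← Complex.exp_add]
  congr 1
  push_cast
  ring

theorem ee_zero : ee 0 = 1 := by
  unfold ee
  simp

theorem ee_int (m : ℤ) : ee m = 1 := by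
  unfold ee
  rw [Complex.exp_eq_one_iff]
  refine ⟨m, ?_⟩
  push_cast
  ring

/-- orthogonality over a period -/
theorem orth_int (ρ : ℝ) (m : ℤ) :
    ∫ α in ρ..(ρ + 1), ee (α * m) = if m = 0 then 1 else 0 := by
  split_ifs with h
  · subst h
    simp [ee_zero]
  · have hc : (2 * Real.pi * m : ℂ) * Complex.I ≠ 0 := by
      have h1 : (m : ℂ) ≠ 0 := by exact_mod_cast h
      have h2 : (Real.pi : ℂ) ≠ 0 := by exact_mod_cast Real.pi_ne_zero
      simp [h1, h2]
    have hfun : ∀ α : ℝ, ee (α * m) = Complex.exp (((2 * Real.pi * m : ℂ) * Complex.I) * α) := by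
      intro α
      unfold ee
      congr 1
      push_cast
      ring
    have h1 : ∫ α in ρ..(ρ + 1), ee (α * m) =
        ∫ α in ρ..(ρ + 1), Complex.exp (((2 * Real.pi * m : ℂ) * Complex.I) * α) := by
      apply intervalIntegral.integral_congr
      intro α _
      exact hfun α
    rw [h1, integral_exp_mul_complex hc]
    rw [← hfun, ← hfun]
    have h2 : ee ((ρ + 1) * m) = ee (ρ * m) := by
      rw [add_mul, one_mul, ← ee_add, ee_int, mul_one]
    rw [h2, sub_self, zero_div]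

theorem kerT_cont {d : ℕ} (k R : ℕ) (y : Fin d → ℤ) : Continuous fun α : ℝ => kerT k R α y := by
  unfold kerT
  split_ifs
  · exact ee_cont.comp (by fun_prop)
  · exact continuous_const

theorem app_cont {d : ℕ} (k R : ℕ) (E : Finset (Fin d → ℤ)) (x : Fin d → ℤ) :
    Continuous fun α : ℝ => app (kerT k R α) E x := by
  unfold app
  exact continuous_finsetSum _ fun z _ => kerT_cont k R (x - z)

theorem app_bound {d : ℕ} (k R : ℕ) (α : ℝ) (E : Finset (Fin d → ℤ)) (x : Fin d → ℤ) :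
    ‖app (kerT k R α) E x‖ ≤
      ((E.filter fun z => ∀ i, z i ≤ x i ∧ x i < z i + R).card : ℝ) := by
  unfold app
  refine (norm_sum_le _ _).trans ?_
  rw [Finset.card_filter]
  push_cast
  apply Finset.sum_le_sum
  intro z _
  unfold kerT
  have hiff : (∀ i, 0 ≤ (x - z) i ∧ (x - z) i < (R : ℤ)) ↔ (∀ i, z i ≤ x i ∧ x i < z i + R) := by
    constructor
    · intro h i
      have := h i
      simp only [Pi.sub_apply] at this
      constructor <;> linarith [this.1, this.2]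
    · intro h i
      have := h i
      simp only [Pi.sub_apply]
      constructor <;> linarith [this.1, this.2]
  by_cases hc : ∀ i, z i ≤ x i ∧ x i < z i + R
  · rw [if_pos (hiff.2 hc), if_pos hc, ee_norm]
  · rw [if_neg (fun h => hc (hiff.1 h)), if_neg hc, norm_zero]

theorem hits_eq {d : ℕ} (k R : ℕ) (E : Finset (Fin d → ℤ)) (x : Fin d → ℤ) (n : ℤ)
    (hn : n < (R : ℤ) ^ k) (ρ : ℝ) :
    (hits k E x n : ℂ) = ∫ α in ρ..(ρ + 1), ee (-(n * α)) * app (kerT k R α) E x := by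
  have h1 : ∀ α : ℝ, ee (-(n * α)) * app (kerT k R α) E x =
      ∑ z ∈ E, ee (-(n * α)) * kerT k R α (x - z) := by
    intro α
    unfold app
    rw [Finset.mul_sum]
  have h2 : ∫ α in ρ..(ρ + 1), ee (-(n * α)) * app (kerT k R α) E x =
      ∑ z ∈ E, ∫ α in ρ..(ρ + 1), ee (-(n * α)) * kerT k R α (x - z) := by
    rw [← intervalIntegral.integral_finsetSum]
    · apply intervalIntegral.integral_congr
      intro α _
      exact h1 α
    · intro z _
      apply Continuous.intervalIntegrable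
      exact (ee_cont.comp (by fun_prop)).mul (kerT_cont k R (x - z))
  rw [h2]
  unfold hits
  rw [Finset.card_filter]
  push_cast
  apply Finset.sum_congr rfl
  intro z _
  by_cases hc : ∀ i, 0 ≤ (x - z) i ∧ (x - z) i < (R : ℤ)
  · have h3 : ∀ α : ℝ, ee (-(n * α)) * kerT k R α (x - z) =
        ee (α * ((∑ i, (x i - z i) ^ k - n : ℤ) : ℝ)) := by
      intro α
      unfold kerT
      rw [if_pos hc, ee_add]
      congr 1
      push_cast
      simp only [Pi.sub_apply]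
      push_cast
      ring
    have h4 : ∫ α in ρ..(ρ + 1), ee (-(n * α)) * kerT k R α (x - z) =
        ∫ α in ρ..(ρ + 1), ee (α * ((∑ i, (x i - z i) ^ k - n : ℤ) : ℝ)) := by
      apply intervalIntegral.integral_congr
      intro α _
      exact h3 α
    rw [h4, orth_int]
    have hle : ∀ i, z i ≤ x i := by
      intro i
      have := (hc i).1
      simp only [Pi.sub_apply] at this
      linarith
    by_cases hs : ∑ i, (x i - z i) ^ k = n
    · rw [if_pos ⟨hle, hs⟩, if_pos (by rw [hs]; ring)]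
    · rw [if_neg (fun h => hs h.2), if_neg (fun h => hs (by linarith))]
  · have h3 : ∀ α : ℝ, ee (-(n * α)) * kerT k R α (x - z) = 0 := by
      intro α
      unfold kerT
      rw [if_neg hc, mul_zero]
    have h4 : ∫ α in ρ..(ρ + 1), ee (-(n * α)) * kerT k R α (x - z) = 0 := by
      rw [intervalIntegral.integral_congr (g := fun _ => (0 : ℂ)) (fun α _ => h3 α)]
      simp
    rw [h4, if_neg]
    rintro ⟨hle, hs⟩
    apply hc
    intro i
    simp only [Pi.sub_apply]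
    have hi : 0 ≤ x i - z i := by linarith [hle i]
    refine ⟨hi, ?_⟩
    by_contra hcon
    push Not at hcon
    have h5 : (x i - z i) ^ k ≤ ∑ j, (x j - z j) ^ k :=
      Finset.single_le_sum (f := fun j => (x j - z j) ^ k)
        (fun j _ => pow_nonneg (by linarith [hle j]) k) (Finset.mem_univ i)
    have h6 : (R : ℤ) ^ k ≤ (x i - z i) ^ k := pow_le_pow_left₀ (by positivity) hcon k
    linarith

/-- subadditivity of set integrals of nonnegative functions -/
theorem int_union_le (f : ℝ → ℝ) (hf : ∀ t, 0 ≤ f t) (s t : Set ℝ) (hs : IntegrableOn f s)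
    (ht : IntegrableOn f t) : ∫ a in s ∪ t, f a ≤ (∫ a in s, f a) + ∫ a in t, f a := by
  rw [← integral_add_measure hs ht]
  exact integral_mono_measure (Measure.restrict_union_le s t) (Filter.Eventually.of_forall hf)
    (Integrable.add_measure hs ht)

theorem int_biUnion_le {ι : Type*} [DecidableEq ι] (f : ℝ → ℝ) (hf : ∀ t, 0 ≤ f t) (I : Finset ι)
    (u : ι → Set ℝ) (s : Set ℝ) (hs : IntegrableOn f s) (hu : ∀ i ∈ I, IntegrableOn f (u i)) :
    ∫ a in s ∪ ⋃ i ∈ I, u i, f a ≤ (∫ a in s, f a) + ∑ i ∈ I, ∫ a in u i, f a := by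
  induction I using Finset.induction_on with
  | empty => simp
  | insert i I hi ih =>
    have h1 : (s ∪ ⋃ j ∈ insert i I, u j) = (s ∪ ⋃ j ∈ I, u j) ∪ u i := by
      rw [Finset.set_biUnion_insert, Set.union_assoc, Set.union_comm (u i)]
    have h2 : IntegrableOn f (s ∪ ⋃ j ∈ I, u j) := by
      refine hs.union ?_
      rw [integrableOn_finset_iUnion]
      intro j hj
      exact hu j (Finset.mem_insert_of_mem hj)
    rw [h1, Finset.sum_insert hi]
    have h3 := int_union_le f hf _ _ h2 (hu i (Finset.mem_insert_self i I))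
    have h4 := ih (fun j hj => hu j (Finset.mem_insert_of_mem hj))
    linarith

theorem VV_cont (k : ℕ) : Continuous fun B : ℝ => VV k B 0 := by
  unfold VV
  apply intervalIntegral.continuous_parametric_intervalIntegral_of_continuous'
  exact ee_cont.comp (by fun_prop)


/-- the index set of the major arcs -/
noncomputable def idx (T : ℝ) : Finset (Σ _ : ℕ, ℕ) :=
  (Finset.Icc 1 ⌊T⌋₊).sigma fun q => (Finset.Icc 1 q).filter (fun a => Nat.Coprime a q)

theorem cover (k R : ℕ) (hk : 3 ≤ k) (hR : 2 ≤ R) :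
    Set.Ioc ((R : ℝ) ^ (-(k : ℝ) + 1 / 16)) ((R : ℝ) ^ (-(k : ℝ) + 1 / 16) + 1) ⊆
      mnr k R ∪ ⋃ i ∈ idx ((R : ℝ) ^ (1 / 16 : ℝ)),
        Set.Icc ((i.2 : ℝ) / i.1 - (R : ℝ) ^ (-(k : ℝ) + 1 / 16))
          ((i.2 : ℝ) / i.1 + (R : ℝ) ^ (-(k : ℝ) + 1 / 16)) := by
  intro α hα
  set ρ : ℝ := (R : ℝ) ^ (-(k : ℝ) + 1 / 16) with hρ
  set T : ℝ := (R : ℝ) ^ (1 / 16 : ℝ) with hT
  have hR0 : (0 : ℝ) < R := by positivity
  have hR2 : (2 : ℝ) ≤ R := by exact_mod_cast hR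
  have hρ0 : 0 < ρ := Real.rpow_pos_of_pos hR0 _
  have hT0 : 0 < T := Real.rpow_pos_of_pos hR0 _
  have hprod : 2 * ρ * T < 1 := by
    have h1 : ρ * T = (R : ℝ) ^ (-(k : ℝ) + 1 / 16 + 1 / 16) := by
      rw [hρ, hT, ← Real.rpow_add hR0]
    have hk3 : (3 : ℝ) ≤ k := by exact_mod_cast hk
    have h2 : (R : ℝ) ^ (-(k : ℝ) + 1 / 16 + 1 / 16) ≤ (R : ℝ) ^ (-2 : ℝ) := by
      apply Real.rpow_le_rpow_of_exponent_le (by linarith)
      linarith
    have h3 : (R : ℝ) ^ (-2 : ℝ) ≤ 1 / 4 := by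
      rw [Real.rpow_neg hR0.le, show (2 : ℝ) = ((2 : ℕ) : ℝ) by norm_num, Real.rpow_natCast]
      rw [show (1 / 4 : ℝ) = 4⁻¹ by norm_num]
      apply inv_anti₀ (by norm_num)
      nlinarith
    nlinarith
  by_cases hm : α ∈ mnr k R
  · exact Or.inl hm
  · right
    have h1 : ∃ q : ℕ, 1 ≤ q ∧ (q : ℝ) ≤ T ∧ ∃ a : ℤ, |α - a / q| ≤ ρ := by
      by_contra hcon
      push Not at hcon
      exact hm ⟨hα.1, by linarith [hα.2], hcon⟩
    obtain ⟨q, hq1, hqT, a, ha⟩ := h1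
    set r : ℚ := (a : ℚ) / q with hr
    have hden : r.den ∣ q := by
      have := Rat.den_dvd a q
      have h2 : (r.den : ℤ) ∣ (q : ℤ) := by
        rw [hr]
        rw [Rat.divInt_eq_div] at this
        simpa using this
      exact_mod_cast h2
    have hdenle : r.den ≤ q := Nat.le_of_dvd (by omega) hden
    have hden1 : 1 ≤ r.den := r.pos
    have hval : (a : ℝ) / q = (r.num : ℝ) / r.den := by
      have h3 : ((r : ℚ) : ℝ) = (r.num : ℝ) / r.den := by
        exact Rat.cast_def r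
      rw [← h3, hr]
      push_cast
      ring
    rw [hval] at ha
    rw [abs_le] at ha
    have hdenR : (0 : ℝ) < r.den := by exact_mod_cast r.pos
    have hdenT : (r.den : ℝ) ≤ T := le_trans (by exact_mod_cast hdenle) hqT
    have hnum : 0 < r.num := by
      have h4 : 0 < (r.num : ℝ) / r.den := by linarith [hα.1]
      have h5 : (0 : ℝ) < r.num := by
        by_contra hcon
        push Not at hcon
        have : (r.num : ℝ) / r.den ≤ 0 := div_nonpos_of_nonpos_of_nonneg hcon hdenR.le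
        linarith
      exact_mod_cast h5
    have hnum2 : r.num ≤ r.den := by
      have h4 : (r.num : ℝ) / r.den ≤ 1 + 2 * ρ := by linarith [hα.2]
      have h5 : (r.num : ℝ) ≤ (1 + 2 * ρ) * r.den := by
        rwa [div_le_iff₀ hdenR] at h4
      have h6 : (r.num : ℝ) < r.den + 1 := by
        have : 2 * ρ * r.den ≤ 2 * ρ * T := by
          apply mul_le_mul_of_nonneg_left hdenT
          positivity
        nlinarith
      have h7 : r.num < r.den + 1 := by exact_mod_cast h6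
      omega
    have hnn : ((r.num.toNat : ℤ)) = r.num := Int.toNat_of_nonneg hnum.le
    simp only [Set.mem_iUnion]
    refine ⟨⟨r.den, r.num.toNat⟩, ?_, ?_⟩
    · unfold idx
      rw [Finset.mem_sigma]
      refine ⟨?_, ?_⟩
      · simp only [Finset.mem_Icc]
        exact ⟨hden1, Nat.le_floor hdenT⟩
      · simp only [Finset.mem_filter, Finset.mem_Icc]
        refine ⟨⟨by omega, by omega⟩, ?_⟩
        have := r.reduced
        rwa [show r.num.toNat = r.num.natAbs by omega]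
    · have h8 : ((r.num.toNat : ℕ) : ℝ) = (r.num : ℝ) := by exact_mod_cast hnn
      simp only [Set.mem_Icc]
      rw [h8]
      constructor <;> linarith [ha.1, ha.2]

theorem subst (g : ℝ → ℝ) (k R : ℕ) (hR : 2 ≤ R) (β : ℝ) :
    ∫ α in Set.Icc (β - (R : ℝ) ^ (-(k : ℝ) + 1 / 16)) (β + (R : ℝ) ^ (-(k : ℝ) + 1 / 16)), g α =
      ((R : ℝ) ^ k)⁻¹ * ∫ B in Set.Icc (-(R : ℝ) ^ (1 / 16 : ℝ)) ((R : ℝ) ^ (1 / 16 : ℝ)),
        g (β + B / (R : ℝ) ^ k) := by
  have hR0 : (0 : ℝ) < R := by positivity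
  have hρ0 : 0 < (R : ℝ) ^ (-(k : ℝ) + 1 / 16) := Real.rpow_pos_of_pos hR0 _
  have hT0 : 0 < (R : ℝ) ^ (1 / 16 : ℝ) := Real.rpow_pos_of_pos hR0 _
  have hRk : (0 : ℝ) < (R : ℝ) ^ k := by positivity
  have hdiv : (R : ℝ) ^ (1 / 16 : ℝ) / (R : ℝ) ^ k = (R : ℝ) ^ (-(k : ℝ) + 1 / 16) := by
    rw [add_comm, Real.rpow_add hR0, Real.rpow_neg hR0.le, Real.rpow_natCast]
    rfl
  rw [integral_Icc_eq_integral_Ioc, integral_Icc_eq_integral_Ioc,
    ← intervalIntegral.integral_of_le (by linarith), ← intervalIntegral.integral_of_le (by linarith),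
    intervalIntegral.integral_comp_add_div _ hRk.ne', neg_div, hdiv, smul_eq_mul, ← mul_assoc,
    inv_mul_cancel₀ hRk.ne', one_mul]
  rfl

theorem arc_le (g : ℝ → ℝ) (hg : Continuous g) (hg0 : ∀ t, 0 ≤ g t) (M : ℝ)
    (hgM : ∀ t, g t ≤ M) (T N : ℝ) (hN : 0 ≤ N) :
    ∫ B in Set.Icc (-T) T, g B ≤ 2 * N * M + ∫ B in {B : ℝ | N < |B| ∧ |B| ≤ T}, g B := by
  have hsub : Set.Icc (-T) T ⊆ Set.Icc (-N) N ∪ {B : ℝ | N < |B| ∧ |B| ≤ T} := by
    intro B hB
    have hBT : |B| ≤ T := abs_le.2 hB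
    by_cases h : |B| ≤ N
    · left; exact abs_le.1 h
    · right; exact ⟨not_le.1 h, hBT⟩
  have hi1 : IntegrableOn g (Set.Icc (-N) N) := hg.integrableOn_Icc
  have hi2 : IntegrableOn g {B : ℝ | N < |B| ∧ |B| ≤ T} :=
    (hg.integrableOn_Icc (a := -T) (b := T)).mono_set (fun B hB => abs_le.1 hB.2)
  have h1 : ∫ B in Set.Icc (-T) T, g B ≤ ∫ B in Set.Icc (-N) N ∪ {B : ℝ | N < |B| ∧ |B| ≤ T}, g B :=
    setIntegral_mono_set (hi1.union hi2) (Filter.Eventually.of_forall hg0)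
      (Filter.Eventually.of_forall hsub)
  have h2 := int_union_le g hg0 _ _ hi1 hi2
  have h3 : ∫ B in Set.Icc (-N) N, g B ≤ 2 * N * M := by
    have h4 : ∫ B in Set.Icc (-N) N, g B ≤ ∫ B in Set.Icc (-N) N, M := by
      apply setIntegral_mono hi1
      · exact (continuous_const.integrableOn_Icc)
      · intro t; exact hgM t
    have h5 : ∫ B in Set.Icc (-N) N, M = 2 * N * M := by
      rw [setIntegral_const, Real.volume_real_Icc_of_le (by linarith), smul_eq_mul]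
      ring
    linarith
  linarith

theorem split_le {d : ℕ} (k q R : ℕ) (a : ℤ) (hR : 2 ≤ R) (N T : ℝ) (E : Finset (Fin d → ℤ))
    (x : Fin d → ℤ) :
    ((R : ℝ) ^ d)⁻¹ * ∫ B in {B : ℝ | N < |B| ∧ |B| ≤ T},
        ‖app (kerT k R (a / q + B / (R : ℝ) ^ k)) E x‖ ≤
      (∫ B in {B : ℝ | N < |B| ∧ |B| ≤ T}, ‖app (Dk k a q R B) E x‖) +
        (∫ B in {B : ℝ | N < |B| ∧ |B| ≤ T}, ‖VV k B 0‖ ^ d) *
          ‖(((q * (R / q) : ℕ) : ℂ) ^ d)⁻¹ * app (kerT k (q * (R / q)) (a / q)) E x‖ := by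
  have hR0 : (0 : ℝ) < R := by positivity
  set K0 : ℂ := (((q * (R / q) : ℕ) : ℂ) ^ d)⁻¹ * app (kerT k (q * (R / q)) (a / q)) E x with hK0
  have happ : ∀ B : ℝ, app (Dk k a q R B) E x =
      ((R : ℂ) ^ d)⁻¹ * app (kerT k R (a / q + B / (R : ℝ) ^ k)) E x - (VV k B 0) ^ d * K0 := by
    intro B
    rw [hK0]
    unfold app Dk
    rw [Finset.sum_sub_distrib, Finset.mul_sum, Finset.mul_sum, Finset.mul_sum]
  have hc1 : Continuous fun B : ℝ => app (kerT k R (a / q + B / (R : ℝ) ^ k)) E x :=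
    (app_cont k R E x).comp (by fun_prop)
  have hc2 : Continuous fun B : ℝ => (VV k B 0) ^ d := (VV_cont k).pow d
  have hc3 : Continuous fun B : ℝ => app (Dk k a q R B) E x := by
    have : (fun B : ℝ => app (Dk k a q R B) E x) = fun B : ℝ =>
      ((R : ℂ) ^ d)⁻¹ * app (kerT k R (a / q + B / (R : ℝ) ^ k)) E x - (VV k B 0) ^ d * K0 :=
      funext happ
    rw [this]
    exact (continuous_const.mul hc1).sub (hc2.mul continuous_const)
  have hint : ∀ g : ℝ → ℝ, Continuous g → IntegrableOn g {B : ℝ | N < |B| ∧ |B| ≤ T} := by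
    intro g hg
    exact (hg.integrableOn_Icc (a := -T) (b := T)).mono_set (fun B hB => abs_le.1 hB.2)
  rw [← integral_const_mul, ← integral_mul_const, ← integral_add]
  · apply setIntegral_mono
    · exact hint _ (continuous_const.mul hc1.norm)
    · exact (hint _ hc3.norm).add (hint _ (((VV_cont k).norm.pow d).mul continuous_const))
    · intro B
      have h1 : ((R : ℝ) ^ d)⁻¹ * ‖app (kerT k R (a / q + B / (R : ℝ) ^ k)) E x‖ =
          ‖app (Dk k a q R B) E x + (VV k B 0) ^ d * K0‖ := by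
        rw [happ, sub_add_cancel, norm_mul, norm_inv, norm_pow, Complex.norm_natCast]
      simp only
      rw [h1]
      refine (norm_add_le _ _).trans ?_
      rw [norm_mul, norm_pow]
  · exact hint _ hc3.norm
  · exact hint _ (((VV_cont k).norm.pow d).mul continuous_const)

theorem sumN_le (T Q M : ℝ) (hQ : 1 ≤ Q) (hM : 0 ≤ M) :
    ∑ i ∈ idx T, 2 * Nq Q i.1 * M ≤ 2 * Q ^ 2 * M := by
  unfold idx
  rw [Finset.sum_sigma]
  simp only [Finset.sum_const, nsmul_eq_mul]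
  have h1 : ∀ q ∈ Finset.Icc 1 ⌊T⌋₊,
      (((Finset.Icc 1 q).filter (fun a => Nat.Coprime a q)).card : ℝ) * (2 * Nq Q q * M) ≤
        if q ∈ Finset.Icc 1 ⌊Q⌋₊ then 2 * Q * M else 0 := by
    intro q hq
    rw [Finset.mem_Icc] at hq
    have hq0 : (0 : ℝ) < q := by exact_mod_cast (by omega : 0 < q)
    have hcard : (((Finset.Icc 1 q).filter (fun a => Nat.Coprime a q)).card : ℝ) ≤ q := by
      have : ((Finset.Icc 1 q).filter (fun a => Nat.Coprime a q)).card ≤ q := by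
        refine (Finset.card_filter_le _ _).trans ?_
        simp
      exact_mod_cast this
    unfold Nq
    by_cases h : (q : ℝ) ≤ Q
    · rw [if_pos h, if_pos (by rw [Finset.mem_Icc]; exact ⟨hq.1, Nat.le_floor h⟩)]
      have h2 : 0 ≤ 2 * (Q / q) * M := by positivity
      calc (((Finset.Icc 1 q).filter (fun a => Nat.Coprime a q)).card : ℝ) * (2 * (Q / q) * M)
          ≤ q * (2 * (Q / q) * M) := mul_le_mul_of_nonneg_right hcard h2
        _ = 2 * Q * M := by field_simp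
    · rw [if_neg h]
      split_ifs
      · simp only [mul_zero, zero_mul]; positivity
      · simp
  refine (Finset.sum_le_sum h1).trans ?_
  rw [← Finset.sum_filter]
  rw [Finset.sum_const, nsmul_eq_mul]
  have h3 : ((((Finset.Icc 1 ⌊T⌋₊).filter (fun q => q ∈ Finset.Icc 1 ⌊Q⌋₊)).card : ℕ) : ℝ) ≤ Q := by
    have h4 : ((Finset.Icc 1 ⌊T⌋₊).filter (fun q => q ∈ Finset.Icc 1 ⌊Q⌋₊)).card ≤ ⌊Q⌋₊ := by
      refine (Finset.card_le_card (t := Finset.Icc 1 ⌊Q⌋₊) ?_).trans (by simp)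
      intro q hq
      exact (Finset.mem_filter.1 hq).2
    calc ((((Finset.Icc 1 ⌊T⌋₊).filter (fun q => q ∈ Finset.Icc 1 ⌊Q⌋₊)).card : ℕ) : ℝ)
        ≤ (⌊Q⌋₊ : ℝ) := by exact_mod_cast h4
      _ ≤ Q := Nat.floor_le (by linarith)
  calc _ ≤ Q * (2 * Q * M) := mul_le_mul_of_nonneg_right h3 (by positivity)
    _ = 2 * Q ^ 2 * M := by ring


theorem Nq_nonneg (Q : ℝ) (hQ : 1 ≤ Q) (q : ℕ) : 0 ≤ Nq Q q := by
  unfold Nq
  split_ifs
  · positivity
  · exact le_refl _

theorem thm : G_DEC := by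
  intro k d R Q E x n hk hkd hR hQ _ hn
  set ρ : ℝ := (R : ℝ) ^ (-(k : ℝ) + 1 / 16) with hρ
  set T : ℝ := (R : ℝ) ^ (1 / 16 : ℝ) with hT
  have hR0 : (0 : ℝ) < R := by positivity
  have hρ0 : 0 < ρ := Real.rpow_pos_of_pos hR0 _
  have hT0 : 0 < T := Real.rpow_pos_of_pos hR0 _
  set cE : ℝ := ((E.filter fun z => ∀ i, z i ≤ x i ∧ x i < z i + R).card : ℝ) with hcE
  have hcE0 : 0 ≤ cE := by rw [hcE]; positivity
  set c : ℝ → ℝ := fun α => ‖app (kerT k R α) E x‖ with hc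
  have hcc : Continuous c := (app_cont k R E x).norm
  have hc0 : ∀ t, 0 ≤ c t := fun t => norm_nonneg _
  have hcM : ∀ t, c t ≤ cE := fun t => app_bound k R t E x
  -- step 1
  have h1 : (hits k E x n : ℝ) ≤ ∫ α in Set.Ioc ρ (ρ + 1), c α := by
    have e1 := hits_eq k R E x n hn ρ
    have e2 : (hits k E x n : ℝ) = ‖(hits k E x n : ℂ)‖ := by
      rw [Complex.norm_natCast]
    rw [e2, e1]
    refine (intervalIntegral.norm_integral_le_integral_norm (by linarith)).trans ?_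
    rw [intervalIntegral.integral_of_le (by linarith)]
    apply le_of_eq
    apply integral_congr_ae
    apply Filter.Eventually.of_forall
    intro α
    simp only [hc]
    rw [norm_mul, ee_norm, one_mul]
  -- step 2
  have hmn : IntegrableOn c (mnr k R) := by
    refine (hcc.integrableOn_Icc (a := ρ) (b := 1 + ρ)).mono_set ?_
    intro α hα
    exact ⟨hα.1.le, hα.2.1⟩
  have h2 : ∫ α in Set.Ioc ρ (ρ + 1), c α ≤ (∫ α in mnr k R, c α) +
      ∑ i ∈ idx T, ∫ α in Set.Icc ((i.2 : ℝ) / i.1 - ρ) ((i.2 : ℝ) / i.1 + ρ), c α := by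
    refine le_trans ?_ (int_biUnion_le c hc0 (idx T)
      (fun i => Set.Icc ((i.2 : ℝ) / i.1 - ρ) ((i.2 : ℝ) / i.1 + ρ)) (mnr k R) hmn
      (fun i _ => hcc.integrableOn_Icc))
    apply setIntegral_mono_set
    · refine hmn.union ?_
      rw [integrableOn_finset_iUnion]
      intro j _
      exact hcc.integrableOn_Icc
    · exact Filter.Eventually.of_forall hc0
    · exact Filter.Eventually.of_forall (cover k R hk hR)
  -- step 3
  set Kt : (Σ _ : ℕ, ℕ) → ℝ := fun i =>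
    (∫ B in {B : ℝ | Nq Q i.1 < |B| ∧ |B| ≤ T}, ‖app (Dk k (i.2 : ℤ) i.1 R B) E x‖) +
      (∫ B in {B : ℝ | Nq Q i.1 < |B| ∧ |B| ≤ T}, ‖VV k B 0‖ ^ d) *
        ‖(((i.1 * (R / i.1) : ℕ) : ℂ) ^ d)⁻¹ *
          app (kerT k (i.1 * (R / i.1)) (((i.2 : ℤ) : ℝ) / i.1)) E x‖ with hKt
  have h3 : ∀ i ∈ idx T, ((R : ℝ) ^ (d - k))⁻¹ *
      ∫ α in Set.Icc ((i.2 : ℝ) / i.1 - ρ) ((i.2 : ℝ) / i.1 + ρ), c α ≤
      2 * Nq Q i.1 * (cE / (R : ℝ) ^ d) + Kt i := by
    intro i _
    rw [subst c k R hR]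
    have e1 := arc_le (fun B => c ((i.2 : ℝ) / i.1 + B / (R : ℝ) ^ k))
      (hcc.comp (by fun_prop)) (fun t => hc0 _) cE (fun t => hcM _) T (Nq Q i.1)
      (Nq_nonneg Q hQ i.1)
    have e2 := split_le k i.1 R (i.2 : ℤ) hR (Nq Q i.1) T E x
    have hpow : ((R : ℝ) ^ (d - k))⁻¹ * ((R : ℝ) ^ k)⁻¹ = ((R : ℝ) ^ d)⁻¹ := by
      rw [← mul_inv, ← pow_add, Nat.sub_add_cancel hkd.le]
    rw [← mul_assoc, hpow]
    have hRd : 0 ≤ ((R : ℝ) ^ d)⁻¹ := by positivity
    have e3 := mul_le_mul_of_nonneg_left e1 hRd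
    refine e3.trans ?_
    rw [mul_add]
    have e4 : ((R : ℝ) ^ d)⁻¹ * (2 * Nq Q i.1 * cE) = 2 * Nq Q i.1 * (cE / (R : ℝ) ^ d) := by
      rw [div_eq_mul_inv]; ring
    rw [e4]
    have e5 : ((R : ℝ) ^ d)⁻¹ * ∫ B in {B : ℝ | Nq Q i.1 < |B| ∧ |B| ≤ T},
        c ((i.2 : ℝ) / i.1 + B / (R : ℝ) ^ k) ≤ Kt i := by
      simp only [hKt, hc]
      rw [Int.cast_natCast] at e2
      rw [Int.cast_natCast]
      exact e2
    linarith
  -- assembly
  have hRdk : 0 < (R : ℝ) ^ (d - k) := by positivity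
  have h4 : (hits k E x n : ℝ) / (R : ℝ) ^ (d - k) ≤
      (∫ α in mnr k R, c α) / (R : ℝ) ^ (d - k) +
        ∑ i ∈ idx T, (2 * Nq Q i.1 * (cE / (R : ℝ) ^ d) + Kt i) := by
    have e1 : (hits k E x n : ℝ) / (R : ℝ) ^ (d - k) ≤ ((∫ α in mnr k R, c α) +
      ∑ i ∈ idx T, ∫ α in Set.Icc ((i.2 : ℝ) / i.1 - ρ) ((i.2 : ℝ) / i.1 + ρ), c α) /
        (R : ℝ) ^ (d - k) :=
      div_le_div_of_nonneg_right (h1.trans h2) hRdk.le
    refine e1.trans ?_
    rw [add_div]
    apply add_le_add (le_refl _)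
    rw [div_eq_inv_mul, Finset.mul_sum]
    exact Finset.sum_le_sum h3
  have h5 := sumN_le T Q (cE / (R : ℝ) ^ d) hQ (by positivity)
  have h6 : ∑ i ∈ idx T, Kt i = ∑ q ∈ Finset.Icc 1 ⌊T⌋₊,
      ∑ a ∈ (Finset.Icc 1 q).filter (fun a => Nat.Coprime a q), Kt ⟨q, a⟩ := by
    unfold idx
    rw [Finset.sum_sigma]
  rw [Finset.sum_add_distrib, h6] at h4
  have h7 : 2 * Q ^ 2 * cE / (R : ℝ) ^ d = 2 * Q ^ 2 * (cE / (R : ℝ) ^ d) := by ring
  rw [h7]
  simp only [hKt] at h4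
  linarith

end Pool.Agent.Helper42.KS.PkDEC
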