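import Pool.Agent.Helper75.KS.GoalsX

/-!
# The Kahn-Saks conjecture, packet KS-ORD
-/

set_option autoImplicit false

namespace Pool.Agent.Helper3.KS

open MeasureTheory Finset
open Pool.Agent.Helper75.KS
open Pool.Agent.Helper89.GP (LX po Ex Pr hh Ch)

/-- The mean of an indicator. -/
lemma ex_ind {n : ℕ} (R : Fin n → Fin n → Prop) (X : Equiv.Perm (Fin n) → ℝ)
    (p : Equiv.Perm (Fin n) → Prop) (h1 : ∀ σ ∈ LX R, p σ → X σ = 1)
    (h0 : ∀ σ ∈ LX R, ¬ p σ → X σ = 0) : Ex R X = Pr R p := by
  classical
  unfold Ex Pr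
  congr 1
  rw [Finset.sum_congr rfl (g := fun σ => if p σ then (1 : ℝ) else 0)]
  · rw [Finset.sum_ite, Finset.sum_const_zero, add_zero, Finset.sum_const, nsmul_eq_mul, mul_one]
  · intro σ hσ
    by_cases hp : p σ
    · rw [h1 σ hσ hp, if_pos hp]
    · rw [h0 σ hσ hp, if_neg hp]

theorem ord (hE : ExmStmt) (hP : PrbStmt) : OrdStmt := by
  classical
  intro n R u v hne
  have := hP.1 n
  have := hP.2.2 n R hne
  have hch := hP.2.1 n
  have hA : MeasurableSet {x : Fin n → ℝ | x u < x v} :=
    measurableSet_lt (measurable_pi_apply u) (measurable_pi_apply v)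
  refine ⟨?_, fun huv => ?_⟩
  · rw [(hE n R hne).2 _ hA]
    refine ex_ind R _ _ (fun σ _ hp => ?_) (fun σ _ hp => ?_)
    · have : {x : Fin n → ℝ | (fun a => x (σ a)) ∈ {x : Fin n → ℝ | x u < x v}} =ᵐ[P0 n]
          (Set.univ : Set (Fin n → ℝ)) := by
        filter_upwards [hch] with x hx
        have : x (σ u) < x (σ v) := hx.2 _ _ (by simpa [po] using hp)
        exact propext ⟨fun _ => trivial, fun _ => this⟩
      rw [measureReal_congr this]
      simp
    · have : {x : Fin n → ℝ | (fun a => x (σ a)) ∈ {x : Fin n → ℝ | x u < x v}} =ᵐ[P0 n]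
          (∅ : Set (Fin n → ℝ)) := by
        filter_upwards [hch] with x hx
        have h : ¬ x (σ u) < x (σ v) := by
          have hp' : σ v ≤ σ u := by
            have : ¬ ((σ u : ℕ) < (σ v : ℕ)) := hp
            exact Fin.le_iff_val_le_val.mpr (not_lt.mp this)
          rcases hp'.lt_or_eq with h1 | h1
          · exact not_lt.mpr (hx.2 _ _ (by simpa using h1)).le
          · rw [h1]; exact lt_irrefl _
        exact propext ⟨fun h' => h h', fun h' => h'.elim⟩
      rw [measureReal_congr this]
      simp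
  · have hB : MeasurableSet {x : Fin n → ℝ | x u = x v} :=
      measurableSet_eq_fun (measurable_pi_apply u) (measurable_pi_apply v)
    have h0 : (mu R).real {x : Fin n → ℝ | x u = x v} = 0 := by
      rw [(hE n R hne).2 _ hB]
      have hz : ∀ σ ∈ LX R, (P0 n).real {x : Fin n → ℝ | (fun a => x (σ a)) ∈
          {x : Fin n → ℝ | x u = x v}} = 0 := by
        intro σ _
        have : {x : Fin n → ℝ | (fun a => x (σ a)) ∈ {x : Fin n → ℝ | x u = x v}} =ᵐ[P0 n]
            (∅ : Set (Fin n → ℝ)) := by
          filter_upwards [hch] with x hx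
          have h : ¬ x (σ u) = x (σ v) := by
            have hne' : σ u ≠ σ v := fun h => huv (σ.injective h)
            rcases lt_or_gt_of_ne hne' with h1 | h1
            · exact (hx.2 _ _ (by simpa using h1)).ne
            · exact (hx.2 _ _ (by simpa using h1)).ne'
          exact propext ⟨fun h' => h h', fun h' => h'.elim⟩
        rw [measureReal_congr this]
        simp
      unfold Ex
      rw [Finset.sum_congr rfl hz]
      simp
    rw [measureReal_eq_zero_iff] at h0
    rw [ae_iff]
    simpa using h0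

end Pool.Agent.Helper3.KS
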